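import Mathlib
import Pool.Agent.W536.XI.Stm

open Complex MeasureTheory Filter Topology

namespace W479.XI

open W536.XI

/-- the orders of the zeros of a subtype inject into a finite set of zeros -/
theorem tsum_bound (f X : ℂ → ℂ) (a b : ℂ) (hb : b ≠ 0)
    (hord : ∀ w, analyticOrderAt f w = analyticOrderAt X (a + b * w))
    (p : ℂ → Prop) (S : Finset ℂ) (hS : ∀ z, p z → (z - a) / b ∈ S)
    (hfin : ∀ w ∈ S, analyticOrderAt f w ≠ ⊤) :
    (∑' z : {z : ℂ // p z}, ((analyticOrderAt X z : ℕ∞) : ENNReal)) ≤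
      ENNReal.ofReal (∑ w ∈ S, (analyticOrderNatAt f w : ℝ)) := by
  have e1 : ∀ z : {z : ℂ // p z}, ((analyticOrderAt X z : ℕ∞) : ENNReal) =
      ((analyticOrderAt f (((z : ℂ) - a) / b) : ℕ∞) : ENNReal) := by
    intro z
    rw [hord]
    have : a + b * (((z : ℂ) - a) / b) = z := by field_simp; ring
    rw [this]
  rw [tsum_congr e1]
  let i : {z : ℂ // p z} → {w : ℂ // w ∈ S} := fun z => ⟨((z : ℂ) - a) / b, hS z z.2⟩
  have hi : Function.Injective i := by
    intro z z' h
    have h1 : ((z : ℂ) - a) / b = ((z' : ℂ) - a) / b := congrArg Subtype.val h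
    have h2 : (z : ℂ) - a = (z' : ℂ) - a := by
      field_simp at h1
      exact h1
    exact Subtype.ext (by linear_combination h2)
  have e2 : (∑' z : {z : ℂ // p z}, ((analyticOrderAt f (((z : ℂ) - a) / b) : ℕ∞) : ENNReal)) ≤
      ∑' w : {w : ℂ // w ∈ S}, ((analyticOrderAt f (w : ℂ) : ℕ∞) : ENNReal) :=
    ENNReal.tsum_comp_le_tsum_of_injective hi
      (fun w : {w : ℂ // w ∈ S} => ((analyticOrderAt f (w : ℂ) : ℕ∞) : ENNReal))
  refine e2.trans (le_of_eq ?_)
  rw [tsum_fintype, ENNReal.ofReal_sum_of_nonneg (fun _ _ => by positivity)]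
  rw [← Finset.sum_coe_sort S (fun w => ENNReal.ofReal (analyticOrderNatAt f w : ℝ))]
  refine Finset.sum_congr rfl (fun w _ => ?_)
  rw [ENNReal.ofReal_natCast, ← Nat.cast_analyticOrderNatAt (hfin w w.2), ENat.toENNReal_coe]

theorem upl (h1 : S_APX) (h2 : S_DABS) (h3 : S_UB) (h4 : S_ZF) (h5 : S_ORD) (h6 : S_FREP) :
    S_UPL := by
  obtain ⟨y1, C, K, hA⟩ := h1 14
  obtain ⟨-, hD1, hD2, hD3, hD4⟩ := h2
  have hXd : Differentiable ℂ (XiL (-1)) := h6.2
  -- growth
  have hlim : Tendsto (fun y : ℝ => Real.log y ^ K / y) atTop (𝓝 0) := by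
    have h := Real.isLittleO_pow_log_id_atTop (n := K)
    exact h.tendsto_div_nhds_zero
  obtain ⟨y2, hy2⟩ := Filter.eventually_atTop.1
    ((tendsto_order.1 hlim).2 (1 / 64) (by norm_num))
  obtain ⟨y3, hy3⟩ := Filter.eventually_atTop.1
    (Real.tendsto_log_atTop.eventually_ge_atTop (max 8 (2 * C + 1)))
  refine ⟨66, max (max y1 y2) (max y3 1), fun y hy => ?_⟩
  have hyy1 : y1 ≤ y := le_trans (le_trans (le_max_left _ _) (le_max_left _ _)) hy
  have hyy2 : y2 ≤ y := le_trans (le_trans (le_max_right _ _) (le_max_left _ _)) hy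
  have hyy3 : y3 ≤ y := le_trans (le_trans (le_max_left _ _) (le_max_right _ _)) hy
  have hyy4 : 1 ≤ y := le_trans (le_trans (le_max_right _ _) (le_max_right _ _)) hy
  have hK : Real.log y ^ K / y ≤ 1 / 64 := le_of_lt (hy2 y hyy2)
  have hr8 : 8 ≤ Real.log y := le_trans (le_max_left _ _) (hy3 y hyy3)
  have hrC : 2 * C + 1 ≤ Real.log y := le_trans (le_max_right _ _) (hy3 y hyy3)
  obtain ⟨l, H, hH, hl, hF⟩ := hA y hyy1
  set r : ℝ := Real.log y with hr
  have hK0 : 0 ≤ r ^ K / y := by positivity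
  have hC0 : 0 ≤ C := le_trans (norm_nonneg _) hl
  -- the auxiliary function
  let E : ℂ → ℂ := fun z => cexp (-(l * (I * y + r + 4 * r * z))) / H
  let a : ℂ := -I * (I * y + r + 2 * l - 1 / 2)
  let b : ℂ := -(4 * I * r)
  let f : ℂ → ℂ := fun z => XiL (-1) (a + b * z) * E z
  have hr0 : (r : ℂ) ≠ 0 := by
    have : r ≠ 0 := by linarith
    exact_mod_cast this
  have hb : b ≠ 0 := by
    simp only [b]
    exact neg_ne_zero.2 (mul_ne_zero (mul_ne_zero (by norm_num) I_ne_zero) hr0)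
  have hEd : Differentiable ℂ E := by
    simp only [E]
    fun_prop
  have hE0 : ∀ z, E z ≠ 0 := fun z => div_ne_zero (Complex.exp_ne_zero _) hH
  have hfd : Differentiable ℂ f := by
    simp only [f]
    exact (hXd.comp (by fun_prop)).mul hEd
  have hff : ∀ z, f z = F ((I * y + r + 4 * r * z) + 2 * l) * E z := by
    intro z
    simp only [f, F, a, b]
    congr 2
    ring
  have key : ∀ z, ‖z‖ ≤ 3 → ‖f z - D (I * y + r + 4 * r * z)‖ ≤
      r ^ K / y * Dabs (-(I * y + r + 4 * r * z : ℂ).re) + Real.exp (-r ^ 2) := by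
    intro z hz
    have hs : ‖(I * y + r + 4 * r * z) - I * y‖ ≤ 14 * r := by
      have : (I * y + r + 4 * r * z) - I * y = r + 4 * r * z := by ring
      rw [this]
      calc ‖(r : ℂ) + 4 * r * z‖ ≤ ‖(r : ℂ)‖ + ‖4 * (r : ℂ) * z‖ := norm_add_le _ _
        _ = r + 4 * r * ‖z‖ := by
          rw [norm_mul, norm_mul, Complex.norm_real, Real.norm_eq_abs, abs_of_nonneg (by linarith)]
          norm_num
        _ ≤ 14 * r := by nlinarith
    have h := hF _ hs
    have hne : H * cexp (l * (I * y + r + 4 * r * z)) ≠ 0 := mul_ne_zero hH (Complex.exp_ne_zero _)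
    have hE1 : H * cexp (l * (I * y + r + 4 * r * z)) * E z = 1 := by
      simp only [E]
      rw [Complex.exp_neg]
      have := Complex.exp_ne_zero (l * (I * y + r + 4 * r * z))
      field_simp
    have e : f z - D (I * y + r + 4 * r * z) =
        (F ((I * y + r + 4 * r * z) + 2 * l) -
          H * cexp (l * (I * y + r + 4 * r * z)) * D (I * y + r + 4 * r * z)) * E z := by
      rw [hff z]
      linear_combination (D (I * y + r + 4 * r * z)) * hE1
    rw [e, norm_mul]
    calc _ ≤ (‖H * cexp (l * (I * y + r + 4 * r * z))‖ * (r ^ K / y *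
            Dabs (-(I * y + r + 4 * r * z : ℂ).re) + Real.exp (-r ^ 2))) * ‖E z‖ := by
          gcongr
      _ = ‖H * cexp (l * (I * y + r + 4 * r * z)) * E z‖ * (r ^ K / y *
            Dabs (-(I * y + r + 4 * r * z : ℂ).re) + Real.exp (-r ^ 2)) := by
          rw [norm_mul (H * cexp (l * (I * y + r + 4 * r * z)))]; ring
      _ = _ := by rw [hE1]; simp
  have hre : ∀ z : ℂ, (I * y + r + 4 * r * z : ℂ).re = r + 4 * r * z.re := by
    intro z
    simp [Complex.add_re, Complex.mul_re]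
  have hexp1 : Real.exp (-r ^ 2) ≤ 1 / 8 := by
    have h8 : Real.exp (-r ^ 2) ≤ Real.exp (-8) := Real.exp_le_exp.2 (by nlinarith)
    have h9 : Real.exp (-8) ≤ 1 / 8 := by
      rw [Real.exp_neg, inv_le_comm₀ (Real.exp_pos _) (by norm_num)]
      have := Real.add_one_le_exp (8 : ℝ)
      linarith
    exact h8.trans h9
  have hD0 : ∀ b, 0 ≤ Dabs b := fun b => tsum_nonneg (fun n => (Real.exp_pos _).le)
  -- value at zero
  have hf0 : 1 / 2 ≤ ‖f 0‖ := by
    have k0 := key 0 (by simp)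
    have hre0 := hre 0
    simp only [mul_zero, add_zero, Complex.zero_re] at k0 hre0
    rw [hre0] at k0
    have hd := hD4 (I * y + r) (by rw [hre0]; linarith)
    rw [hre0] at hd
    have q1 : Dabs (-r) ≤ 8 := by
      have q2 : Dabs (-r) ≤ Dabs 0 := hD2 _ _ (by linarith)
      have q3 := hD1 0
      have q4 : Real.exp ((0 : ℝ) ^ 2 / 4 + |(0 : ℝ)| + 2) ≤ 8 := by
        have : ((0 : ℝ) ^ 2 / 4 + |(0 : ℝ)| + 2) = 1 + 1 := by simp; norm_num
        rw [this, Real.exp_add]
        have := Real.exp_one_lt_d9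
        have h0 := Real.exp_pos 1
        nlinarith
      linarith
    have q5 : r ^ K / y * Dabs (-r) ≤ 1 / 8 := by
      calc r ^ K / y * Dabs (-r) ≤ 1 / 64 * 8 := by
            apply mul_le_mul hK q1 (hD0 _) (by norm_num)
        _ = 1 / 8 := by norm_num
    have q6 : 3 * Real.exp (-(r * Real.log 2)) ≤ 1 / 8 := by
      have hl2 := Real.log_two_gt_d9
      have q7 : Real.exp (-(r * Real.log 2)) ≤ Real.exp (-(4 : ℝ)) := by
        apply Real.exp_le_exp.2
        nlinarith
      have q8 : Real.exp (-(4 : ℝ)) ≤ 1 / 24 := by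
        rw [Real.exp_neg, inv_le_comm₀ (Real.exp_pos _) (by norm_num)]
        have h2 : Real.exp (4 : ℝ) = Real.exp 1 ^ 4 := by
          rw [← Real.exp_nat_mul]; norm_num
        rw [h2]
        have := Real.exp_one_gt_d9
        have h27 : (2.7 : ℝ) ^ 4 ≤ Real.exp 1 ^ 4 := by gcongr; linarith
        norm_num at h27 ⊢
        linarith
      linarith
    have q9 : ‖f 0 - 1‖ ≤ 1 / 2 := by
      calc ‖f 0 - 1‖ = ‖(f 0 - D (I * y + r)) + (D (I * y + r) - 1)‖ := by congr 1; ring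
        _ ≤ ‖f 0 - D (I * y + r)‖ + ‖D (I * y + r) - 1‖ := norm_add_le _ _
        _ ≤ 1 / 2 := by linarith
    have q10 : (1 : ℝ) ≤ ‖f 0‖ + ‖f 0 - 1‖ := by
      calc (1 : ℝ) = ‖f 0 - (f 0 - 1)‖ := by simp
        _ ≤ _ := norm_sub_le _ _
    linarith
  -- upper bound
  have hfM : ∀ z, ‖z‖ ≤ 3 → ‖f z‖ ≤ Real.exp (32 * r ^ 2) := by
    intro z hz
    have k := key z hz
    have hd := hD3 (I * y + r + 4 * r * z)
    rw [hre] at k hd
    have hzre : -3 ≤ z.re := by
      have := Complex.abs_re_le_norm z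
      have h' := neg_abs_le z.re
      linarith
    have hm : Dabs (-(r + 4 * r * z.re)) ≤ Dabs (11 * r) := hD2 _ _ (by nlinarith)
    have hM := hD1 (11 * r)
    have hM0 := hD0 (-(r + 4 * r * z.re))
    have t1 : ‖f z‖ ≤ 2 * Dabs (11 * r) + 1 := by
      have t2 : ‖f z‖ ≤ ‖f z - D (I * y + r + 4 * r * z)‖ + ‖D (I * y + r + 4 * r * z)‖ := by
        calc ‖f z‖ = ‖(f z - D (I * y + r + 4 * r * z)) + D (I * y + r + 4 * r * z)‖ := by
              congr 1; ring
          _ ≤ _ := norm_add_le _ _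
      have t3 : r ^ K / y * Dabs (-(r + 4 * r * z.re)) ≤ Dabs (11 * r) := by
        calc r ^ K / y * Dabs (-(r + 4 * r * z.re)) ≤ 1 * Dabs (11 * r) := by
              apply mul_le_mul (by linarith) hm hM0 (by norm_num)
          _ = _ := one_mul _
      linarith
    have t4 : (1 : ℝ) ≤ Real.exp ((11 * r) ^ 2 / 4 + |11 * r| + 2) := by
      apply Real.one_le_exp
      positivity
    have t5 : (3 : ℝ) ≤ Real.exp 2 := by
      have := Real.add_one_le_exp (2 : ℝ)
      linarith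
    calc ‖f z‖ ≤ 3 * Real.exp ((11 * r) ^ 2 / 4 + |11 * r| + 2) := by linarith
      _ ≤ Real.exp 2 * Real.exp ((11 * r) ^ 2 / 4 + |11 * r| + 2) := by gcongr
      _ = Real.exp (2 + ((11 * r) ^ 2 / 4 + |11 * r| + 2)) := by rw [← Real.exp_add]
      _ ≤ Real.exp (32 * r ^ 2) := by
        apply Real.exp_le_exp.2
        rw [abs_of_nonneg (by linarith)]
        nlinarith
  -- the zeros
  obtain ⟨S, g, hS, -, -, hSfin, -⟩ := h4 f hfd ⟨0, by
    intro h0
    rw [h0, norm_zero] at hf0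
    norm_num at hf0⟩ 1
  have hcount := h3 (32 * r ^ 2) f hfd hf0 hfM S hS
  have hord : ∀ w, analyticOrderAt f w = analyticOrderAt (XiL (-1)) (a + b * w) :=
    fun w => h5 (XiL (-1)) E hXd hEd hE0 a b hb w
  have hmem : ∀ z : ℂ, (XiL (-1) z = 0 ∧ z.im = 0 ∧ |z.re - y| ≤ 2 * r) → (z - a) / b ∈ S := by
    rintro z ⟨hz0, hzi, hzr⟩
    rw [hS]
    constructor
    · rw [norm_div]
      have hnb : ‖b‖ = 4 * r := by
        simp only [b]
        rw [norm_neg, norm_mul, norm_mul, Complex.norm_real, Complex.norm_I, Real.norm_eq_abs,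
          abs_of_nonneg (by linarith)]
        norm_num
      rw [hnb, div_le_one (by linarith)]
      have e1 : z - a = (((z.re - y : ℝ) : ℂ) + ((2 * r : ℝ) : ℂ) * I) +
          (2 * I * (l - (r / 2 : ℝ)) - I / 2) := by
        have hz : z = (z.re : ℂ) := Complex.ext (by simp) (by simp [hzi])
        conv_lhs => rw [hz]
        simp only [a]
        push_cast
        linear_combination (y : ℂ) * Complex.I_sq
      rw [e1]
      have e2 : ‖((z.re - y : ℝ) : ℂ) + ((2 * r : ℝ) : ℂ) * I‖ ≤ 3 * r := by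
        rw [Complex.norm_add_mul_I]
        rw [Real.sqrt_le_left (by linarith)]
        have : (z.re - y) ^ 2 ≤ (2 * r) ^ 2 := sq_le_sq' (by linarith [abs_le.1 hzr]) (abs_le.1 hzr).2
        nlinarith
      have e3 : ‖2 * I * (l - (r / 2 : ℝ)) - I / 2‖ ≤ 2 * C + 1 / 2 := by
        calc ‖2 * I * (l - (r / 2 : ℝ)) - I / 2‖ ≤ ‖2 * I * (l - (r / 2 : ℝ))‖ + ‖I / 2‖ :=
              norm_sub_le _ _
          _ = 2 * ‖l - (r / 2 : ℝ)‖ + 1 / 2 := by
              rw [norm_mul, norm_mul, norm_div, Complex.norm_I]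
              norm_num
          _ ≤ _ := by linarith
      calc _ ≤ ‖((z.re - y : ℝ) : ℂ) + ((2 * r : ℝ) : ℂ) * I‖ +
            ‖2 * I * (l - (r / 2 : ℝ)) - I / 2‖ := norm_add_le _ _
        _ ≤ 4 * r := by linarith
    · simp only [f]
      have : a + b * ((z - a) / b) = z := by field_simp; ring
      rw [this, hz0, zero_mul]
  have hfinal := tsum_bound f (XiL (-1)) a b hb hord
    (fun z => XiL (-1) z = 0 ∧ z.im = 0 ∧ |z.re - y| ≤ 2 * r) S hmem hSfin
  refine le_trans hfinal (ENNReal.ofReal_le_ofReal ?_)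
  nlinarith

end W479.XI
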